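import Mathlib

/-!
# Pointwise estimates
-/

open ComplexConjugate

namespace Pool.Agent.X304.Mul

theorem dir {z z' : ℂ} (hz : z ≠ 0) (hz' : z' ≠ 0) :
    ‖z' / ‖z'‖ - z / ‖z‖‖ ≤ 2 * ‖z' - z‖ / ‖z‖ := by
  have h1 : 0 < ‖z‖ := norm_pos_iff.2 hz
  have h2 : 0 < ‖z'‖ := norm_pos_iff.2 hz'
  have h1' : (‖z‖ : ℂ) ≠ 0 := by exact_mod_cast h1.ne'
  have h2' : (‖z'‖ : ℂ) ≠ 0 := by exact_mod_cast h2.ne'
  have e : z' / ‖z'‖ - z / ‖z‖ = (z' - z) / ‖z‖ + z' / ‖z'‖ * (((‖z‖ - ‖z'‖ : ℝ) : ℂ) / ‖z‖) := by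
    push_cast
    field_simp
    ring
  rw [e]
  refine (norm_add_le _ _).trans ?_
  rw [norm_div, norm_mul, norm_div, norm_div, Complex.norm_real, Complex.norm_real,
    Complex.norm_real, norm_norm, norm_norm, div_self h2.ne', one_mul, Real.norm_eq_abs]
  have h3 : |‖z‖ - ‖z'‖| ≤ ‖z' - z‖ := by
    rw [abs_sub_comm]
    exact abs_norm_sub_norm_le z' z
  rw [← add_div]
  gcongr
  linarith

/-- The modulus of the first factor. -/
noncomputable def modl (η F G H : ℝ) : ℝ := max (F - η ^ 3 / 4) (H / (G + η))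

theorem modl_pos {η F G H : ℝ} (hη : 0 < η) (hG : 0 ≤ G) (hH : 0 < H) : 0 < modl η F G H :=
  lt_of_lt_of_le (div_pos hH (by linarith)) (le_max_right _ _)

theorem modl_near {η F G H : ℝ} (hη : 0 < η) (hF : 0 ≤ F) (hG : 0 ≤ G)
    (h : |H - F * G| ≤ η ^ 4 / 4) : |modl η F G H - F| ≤ η ^ 3 / 4 := by
  rw [abs_le] at h ⊢
  constructor
  · have := le_max_left (F - η ^ 3 / 4) (H / (G + η))
    unfold modl
    linarith
  · have h1 : H / (G + η) ≤ F + η ^ 3 / 4 := by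
      rw [div_le_iff₀ (by linarith)]
      have h3 : 0 ≤ η ^ 3 := by positivity
      nlinarith [mul_nonneg hF hη.le, mul_nonneg h3 hG]
    have h2 : F - η ^ 3 / 4 ≤ F + η ^ 3 / 4 := by
      have : 0 ≤ η ^ 3 := by positivity
      linarith
    have := max_le h2 h1
    unfold modl
    linarith

theorem modl_quot {η F G H : ℝ} (hη : 0 < η) (hG : 0 ≤ G) (hH : 0 < H)
    (h : |H - F * G| ≤ η ^ 4 / 4) : |H / modl η F G H - G| ≤ η := by
  have ha := modl_pos (F := F) hη hG hH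
  rw [abs_le] at h ⊢
  constructor
  · have h1 : (G - η) * modl η F G H ≤ H := by
      by_cases hGη : G ≤ η
      · nlinarith
      · push Not at hGη
        unfold modl
        rcases le_total (F - η ^ 3 / 4) (H / (G + η)) with h2 | h2
        · rw [max_eq_right h2, ← mul_div_assoc, div_le_iff₀ (by linarith)]
          nlinarith
        · rw [max_eq_left h2]
          have h3 : 0 < F - η ^ 3 / 4 := lt_of_lt_of_le (div_pos hH (by linarith)) h2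
          have h4 : 0 < η ^ 3 := by positivity
          nlinarith [mul_pos hη h3, mul_pos h4 (sub_pos.2 hGη)]
    have h2 : G - η ≤ H / modl η F G H := by
      rw [le_div_iff₀ ha]; exact h1
    linarith
  · have h1 : H / (G + η) ≤ modl η F G H := le_max_right _ _
    rw [div_le_iff₀ (by linarith)] at h1
    have h2 : H / modl η F G H ≤ G + η := by
      rw [div_le_iff₀ ha]; linarith
    linarith

theorem phaseA {η : ℝ} (hη : 0 < η) (hη1 : η ≤ 1 / 16) {f g h z : ℂ} {l : ℝ} (hl0 : 0 ≤ l)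
    (hl1 : l ≤ 1) (hl : l = 1 ∨ 2 * η ≤ ‖g‖) (hg : ‖g‖ ≤ 2)
    (hh : ‖h - f * g‖ ≤ η ^ 4 / 4) (hz0 : z ≠ 0)
    (hz : ‖z - (l * f + (1 - l) * (h * conj g))‖ ≤ η ^ 4 / 4) (hF : 2 * η ≤ ‖f‖) :
    ‖z / ‖z‖ - f / ‖f‖‖ ≤ η / 4 := by
  set ρ : ℝ := l + (1 - l) * ‖g‖ ^ 2 with hρ
  have hρ1 : 4 * η ^ 2 ≤ ρ := by
    rcases hl with h1 | h1
    · rw [hρ, h1]; nlinarith
    · have h2 : 4 * η ^ 2 ≤ ‖g‖ ^ 2 := by nlinarith
      have h3 : 4 * η ^ 2 ≤ 1 := by nlinarith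
      nlinarith [mul_nonneg hl0 (sub_nonneg.2 h3), mul_nonneg (sub_nonneg.2 hl1) (sub_nonneg.2 h2)]
  have hρ0 : 0 < ρ := lt_of_lt_of_le (by positivity) hρ1
  have hf0 : f ≠ 0 := by
    rintro rfl
    rw [norm_zero] at hF
    linarith
  have e1 : (l * f + (1 - l) * (h * conj g) : ℂ) - (ρ : ℂ) * f = (1 - l) * (conj g * (h - f * g)) := by
    have e2 : ((‖g‖ : ℂ)) ^ 2 = g * conj g := by
      rw [Complex.mul_conj, Complex.normSq_eq_norm_sq]
      push_cast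
      ring
    rw [hρ]
    push_cast
    rw [e2]
    ring
  have h1 : ‖(l * f + (1 - l) * (h * conj g) : ℂ) - (ρ : ℂ) * f‖ ≤ 2 * (η ^ 4 / 4) := by
    rw [e1, norm_mul, norm_mul, RCLike.norm_conj]
    have h2 : ‖(1 - l : ℂ)‖ ≤ 1 := by
      have : (1 - l : ℂ) = ((1 - l : ℝ) : ℂ) := by push_cast; ring
      rw [this, Complex.norm_real, Real.norm_of_nonneg (by linarith)]
      linarith
    calc ‖(1 - l : ℂ)‖ * (‖g‖ * ‖h - f * g‖) ≤ 1 * (2 * (η ^ 4 / 4)) := by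
          gcongr
      _ = _ := one_mul _
  have h2 : ‖z - (ρ : ℂ) * f‖ ≤ 3 * (η ^ 4 / 4) := by
    calc ‖z - (ρ : ℂ) * f‖ = ‖(z - (l * f + (1 - l) * (h * conj g))) +
          ((l * f + (1 - l) * (h * conj g) : ℂ) - (ρ : ℂ) * f)‖ := by congr 1; ring
      _ ≤ _ := (norm_add_le _ _).trans (by linarith)
  have hρf : (ρ : ℂ) * f ≠ 0 := mul_ne_zero (by exact_mod_cast hρ0.ne') hf0
  have h3 := dir hρf hz0
  have e3 : (ρ : ℂ) * f / ‖(ρ : ℂ) * f‖ = f / ‖f‖ := by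
    rw [norm_mul, Complex.norm_real, Real.norm_of_nonneg hρ0.le]
    push_cast
    have : (ρ : ℂ) ≠ 0 := by exact_mod_cast hρ0.ne'
    have : (‖f‖ : ℂ) ≠ 0 := by exact_mod_cast (norm_pos_iff.2 hf0).ne'
    field_simp
  rw [e3] at h3
  refine h3.trans ?_
  have h4 : 8 * η ^ 3 ≤ ‖(ρ : ℂ) * f‖ := by
    rw [norm_mul, Complex.norm_real, Real.norm_of_nonneg hρ0.le]
    calc 8 * η ^ 3 = 4 * η ^ 2 * (2 * η) := by ring
      _ ≤ ρ * ‖f‖ := by gcongr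
  rw [div_le_iff₀ (lt_of_lt_of_le (by positivity) h4)]
  calc 2 * ‖z - (ρ : ℂ) * f‖ ≤ 2 * (3 * (η ^ 4 / 4)) := by gcongr
    _ ≤ η / 4 * (8 * η ^ 3) := by nlinarith [pow_pos hη 4]
    _ ≤ _ := by gcongr

end Pool.Agent.X304.Mul
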