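import Pool.Agent.X304.Mul.Dense
import Pool.Agent.X304.Mul.Point

/-!
# Approximate lifting
-/

open Set Metric
open scoped Topology ComplexConjugate

universe u

namespace Pool.Agent.X304.Mul

variable {X : Type u} [TopologicalSpace X] [CompactSpace X]

/-- Nonvanishing functions are dense. -/
def DenseNV (X : Type u) [TopologicalSpace X] : Prop :=
  ∀ (f : C(X, ℂ)) (ε : ℝ), 0 < ε → ∃ g : C(X, ℂ), (∀ x, g x ≠ 0) ∧ ∀ x, ‖g x - f x‖ < ε

theorem lift_nv (D : DenseNV X) {η : ℝ} (hη : 0 < η) (hη1 : η ≤ 1 / 16) (f g h : C(X, ℂ))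
    (hf : ∀ x, ‖f x‖ ≤ 2) (hg : ∀ x, ‖g x‖ ≤ 2) (hh : ∀ x, ‖h x - f x * g x‖ ≤ η ^ 4 / 4)
    (hnv : ∀ x, h x ≠ 0) :
    ∃ f₁ g₁ : C(X, ℂ), (∀ x, ‖f₁ x - f x‖ ≤ 8 * η) ∧ (∀ x, ‖g₁ x - g x‖ ≤ 8 * η) ∧
      f₁ * g₁ = h := by
  -- lower bound for `h`
  obtain ⟨m, hm0, hm⟩ : ∃ m : ℝ, 0 < m ∧ ∀ x, m ≤ ‖h x‖ := by
    rcases isEmpty_or_nonempty X with hX | hX
    · exact ⟨1, one_pos, fun x => (hX.false x).elim⟩
    · obtain ⟨x₀, -, hx₀⟩ := isCompact_univ.exists_isMinOn univ_nonempty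
        (f := fun x => ‖h x‖) (h.continuous.norm.continuousOn)
      exact ⟨‖h x₀‖, norm_pos_iff.2 (hnv x₀), fun x => hx₀ (mem_univ x)⟩
  -- the interpolation parameter
  let l : X → ℝ := fun x => max 0 (min 1 ((3 * η - ‖g x‖) / η))
  have hlc : Continuous l := by
    refine continuous_const.max (continuous_const.min ?_)
    exact (continuous_const.sub g.continuous.norm).div_const η
  have hl0 : ∀ x, 0 ≤ l x := fun x => le_max_left _ _
  have hl1 : ∀ x, l x ≤ 1 := fun x => max_le zero_le_one (min_le_left _ _)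
  have hlone : ∀ x, l x = 1 ∨ 2 * η ≤ ‖g x‖ := by
    intro x
    by_cases h1 : 2 * η ≤ ‖g x‖
    · exact Or.inr h1
    · left
      push Not at h1
      have h2 : 1 ≤ (3 * η - ‖g x‖) / η := by
        rw [le_div_iff₀ hη]; linarith
      simp only [l]
      rw [min_eq_left h2, max_eq_right zero_le_one]
  have hlzero : ∀ x, 3 * η ≤ ‖g x‖ → l x = 0 := by
    intro x h1
    have h2 : (3 * η - ‖g x‖) / η ≤ 0 := div_nonpos_of_nonpos_of_nonneg (by linarith) hη.le
    simp only [l]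
    rw [min_eq_right (by linarith), max_eq_left h2]
  let z₀ : C(X, ℂ) := ⟨fun x => ((l x : ℝ) : ℂ) * f x + (1 - ((l x : ℝ) : ℂ)) * (h x * conj (g x)), by
    have h1 : Continuous fun x => ((l x : ℝ) : ℂ) := Complex.continuous_ofReal.comp hlc
    have h2 : Continuous fun x => conj (g x) := Complex.continuous_conj.comp g.continuous
    exact (h1.mul f.continuous).add ((continuous_const.sub h1).mul (h.continuous.mul h2))⟩
  set t : ℝ := min (η ^ 4 / 4) (η ^ 2 * m) with ht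
  have ht0 : 0 < t := lt_min (by positivity) (by positivity)
  obtain ⟨z, hz0, hz⟩ := D z₀ t ht0
  have hzn : ∀ x, 0 < ‖z x‖ := fun x => norm_pos_iff.2 (hz0 x)
  have hznc : ∀ x, (‖z x‖ : ℂ) ≠ 0 := fun x => by exact_mod_cast (hzn x).ne'
  -- modulus and phase
  let a : X → ℝ := fun x => modl η ‖f x‖ ‖g x‖ ‖h x‖
  have hHx : ∀ x, 0 < ‖h x‖ := fun x => norm_pos_iff.2 (hnv x)
  have ha0 : ∀ x, 0 < a x := fun x => modl_pos hη (norm_nonneg _) (hHx x)
  have hac : Continuous a := by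
    refine (f.continuous.norm.sub continuous_const).max ?_
    refine h.continuous.norm.div (g.continuous.norm.add continuous_const) fun x => ?_
    have := norm_nonneg (g x)
    positivity
  have hcomp : ∀ x, |‖h x‖ - ‖f x‖ * ‖g x‖| ≤ η ^ 4 / 4 := by
    intro x
    rw [← norm_mul]
    exact (abs_norm_sub_norm_le _ _).trans (hh x)
  have hmod1 : ∀ x, |a x - ‖f x‖| ≤ η ^ 3 / 4 := fun x =>
    modl_near hη (norm_nonneg _) (norm_nonneg _) (hcomp x)
  have hmod2 : ∀ x, |‖h x‖ / a x - ‖g x‖| ≤ η := fun x =>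
    modl_quot hη (norm_nonneg _) (hHx x) (hcomp x)
  have hac0 : ∀ x, ((a x : ℝ) : ℂ) ≠ 0 := fun x => by exact_mod_cast (ha0 x).ne'
  let f₁ : C(X, ℂ) := ⟨fun x => ((a x : ℝ) : ℂ) * (z x / ‖z x‖), by
    refine (Complex.continuous_ofReal.comp hac).mul (z.continuous.div ?_ hznc)
    exact Complex.continuous_ofReal.comp z.continuous.norm⟩
  have hf₁0 : ∀ x, f₁ x ≠ 0 := fun x =>
    mul_ne_zero (hac0 x) (div_ne_zero (hz0 x) (hznc x))
  let g₁ : C(X, ℂ) := ⟨fun x => h x / f₁ x, h.continuous.div f₁.continuous hf₁0⟩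
  have hη3 : η ^ 3 / 4 ≤ η / 4 := by
    have : η ^ 3 ≤ η := by
      have h1 : η ^ 2 ≤ 1 := by nlinarith
      calc η ^ 3 = η ^ 2 * η := by ring
        _ ≤ 1 * η := by gcongr
        _ = η := one_mul _
    linarith
  have hpn : ∀ x, ‖z x / (‖z x‖ : ℂ)‖ = 1 := fun x => by
    rw [norm_div, Complex.norm_real, norm_norm, div_self (hzn x).ne']
  refine ⟨f₁, g₁, fun x => ?_, fun x => ?_, ?_⟩
  · -- first factor
    change ‖((a x : ℝ) : ℂ) * (z x / ‖z x‖) - f x‖ ≤ 8 * η
    have hma := abs_le.1 (hmod1 x)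
    by_cases hF : 2 * η ≤ ‖f x‖
    · have hph := phaseA hη hη1 (hl0 x) (hl1 x) (hlone x) (hg x) (hh x) (hz0 x)
        ((hz x).le.trans (min_le_left _ _)) hF
      have hf0 : (‖f x‖ : ℂ) ≠ 0 := by
        have : ‖f x‖ ≠ 0 := by
          intro h0; rw [h0] at hF; linarith
        exact_mod_cast this
      have e : ((a x : ℝ) : ℂ) * (z x / ‖z x‖) - f x =
          ((a x - ‖f x‖ : ℝ) : ℂ) * (z x / ‖z x‖) + ‖f x‖ * (z x / ‖z x‖ - f x / ‖f x‖) := by
        push_cast
        field_simp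
        ring
      rw [e]
      refine (norm_add_le _ _).trans ?_
      rw [norm_mul, norm_mul, hpn, Complex.norm_real, Complex.norm_real, norm_norm, mul_one,
        Real.norm_eq_abs]
      have h1 : ‖f x‖ * ‖z x / ‖z x‖ - f x / ‖f x‖‖ ≤ 2 * (η / 4) := by
        have := hf x
        gcongr
      linarith [hmod1 x]
    · push Not at hF
      refine (norm_sub_le _ _).trans ?_
      rw [norm_mul, hpn, mul_one, Complex.norm_real, Real.norm_of_nonneg (ha0 x).le]
      linarith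
  · -- second factor
    change ‖h x / (((a x : ℝ) : ℂ) * (z x / ‖z x‖)) - g x‖ ≤ 8 * η
    have hmb := abs_le.1 (hmod2 x)
    have hpinv : (z x / (‖z x‖ : ℂ))⁻¹ = conj (z x / ‖z x‖) := by
      rw [Complex.inv_def, Complex.normSq_eq_norm_sq, hpn]
      simp
    have e0 : h x / (((a x : ℝ) : ℂ) * (z x / ‖z x‖)) =
        h x / ((a x : ℝ) : ℂ) * conj (z x / ‖z x‖) := by
      rw [← hpinv]
      have := hac0 x
      have := hz0 x
      have := hznc x
      field_simp
    have hha : ‖h x / ((a x : ℝ) : ℂ)‖ = ‖h x‖ / a x := by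
      rw [norm_div, Complex.norm_real, Real.norm_of_nonneg (ha0 x).le]
    by_cases hG : 3 * η ≤ ‖g x‖
    · have hl := hlzero x hG
      have hgn : 0 < ‖g x‖ := by linarith
      have hg0 : g x ≠ 0 := norm_pos_iff.1 hgn
      have hz₀x : z₀ x = h x * conj (g x) := by
        change ((l x : ℝ) : ℂ) * f x + (1 - ((l x : ℝ) : ℂ)) * (h x * conj (g x)) = _
        rw [hl]
        push_cast
        ring
      have hz₀0 : z₀ x ≠ 0 := by
        rw [hz₀x]
        exact mul_ne_zero (hnv x) ((map_ne_zero _).2 hg0)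
      have hd := dir hz₀0 (hz0 x)
      have hn : ‖z₀ x‖ = ‖h x‖ * ‖g x‖ := by rw [hz₀x, norm_mul, RCLike.norm_conj]
      have hd2 : 2 * ‖z x - z₀ x‖ / ‖z₀ x‖ ≤ η := by
        rw [div_le_iff₀ (norm_pos_iff.2 hz₀0), hn]
        have h1 : ‖z x - z₀ x‖ ≤ η ^ 2 * m := (hz x).le.trans (min_le_right _ _)
        calc 2 * ‖z x - z₀ x‖ ≤ 2 * (η ^ 2 * m) := by gcongr
          _ ≤ η * (m * (3 * η)) := by nlinarith [mul_pos (pow_pos hη 2) hm0]
          _ ≤ η * (‖h x‖ * ‖g x‖) := by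
            have := hm x
            gcongr
      have hd3 := hd.trans hd2
      have e1 : h x / ((a x : ℝ) : ℂ) * conj (z₀ x / ‖z₀ x‖) =
          ((‖h x‖ / a x : ℝ) : ℂ) * (g x / ‖g x‖) := by
        rw [hn, hz₀x]
        simp only [map_div₀, map_mul, Complex.conj_conj, Complex.conj_ofReal]
        have e2 : h x * conj (h x) = (‖h x‖ : ℂ) ^ 2 := by
          rw [Complex.mul_conj, Complex.normSq_eq_norm_sq]
          push_cast
          ring
        have h1 : (‖h x‖ : ℂ) ≠ 0 := by exact_mod_cast (hHx x).ne'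
        have h2 : (‖g x‖ : ℂ) ≠ 0 := by exact_mod_cast hgn.ne'
        have h3 := hac0 x
        push_cast
        field_simp
        linear_combination e2
      have e3 : h x / (((a x : ℝ) : ℂ) * (z x / ‖z x‖)) - g x =
          h x / ((a x : ℝ) : ℂ) * conj (z x / ‖z x‖ - z₀ x / ‖z₀ x‖) +
            ((‖h x‖ / a x - ‖g x‖ : ℝ) : ℂ) * (g x / ‖g x‖) := by
        rw [e0, map_sub, mul_sub, e1]
        have h2 : (‖g x‖ : ℂ) ≠ 0 := by exact_mod_cast hgn.ne'
        push_cast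
        field_simp
        ring
      rw [e3]
      refine (norm_add_le _ _).trans ?_
      rw [norm_mul, norm_mul, RCLike.norm_conj, hha, Complex.norm_real, norm_div,
        Complex.norm_real, norm_norm, div_self hgn.ne', mul_one, Real.norm_eq_abs]
      have h4 : ‖h x‖ / a x ≤ 3 := by
        have := hg x
        linarith [hmb.2]
      have h5 : ‖h x‖ / a x * ‖z x / ‖z x‖ - z₀ x / ‖z₀ x‖‖ ≤ 3 * η := by
        gcongr
      linarith [hmod2 x]
    · push Not at hG
      refine (norm_sub_le _ _).trans ?_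
      rw [e0, norm_mul, RCLike.norm_conj, hpn, mul_one, hha]
      linarith [hmb.2]
  · ext x
    change f₁ x * (h x / f₁ x) = h x
    have := hf₁0 x
    field_simp

end Pool.Agent.X304.Mul
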