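import Mathlib

/-!
# Nonvanishing functions are dense in `C(X, ℂ)` if `dim X ≤ 1`
-/

open Set Metric MeasureTheory
open scoped Topology

universe u

namespace Pool.Agent.X304.Mul

/-- The Lebesgue covering dimension of `X` is at most `n`: every finite open cover has a finite
open refinement such that every point lies in at most `n + 1` of its members. -/
def CoveringDimLE (X : Type u) [TopologicalSpace X] (n : ℕ) : Prop :=
  ∀ (N : ℕ) (U : Fin N → Set X), (∀ i, IsOpen (U i)) → (⋃ i, U i) = univ →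
    ∃ (M : ℕ) (V : Fin M → Set X), (∀ k, IsOpen (V k)) ∧ (⋃ k, V k) = univ ∧
      (∀ k, ∃ i, V k ⊆ U i) ∧ ∀ x, {k | x ∈ V k}.ncard ≤ n + 1

theorem exists_small_avoid {M : ℕ} (c : Fin M → ℂ) {ε : ℝ} (hε : 0 < ε) :
    ∃ τ : ℂ, ‖τ‖ < ε ∧ ∀ k l, -τ ∉ segment ℝ (c k) (c l) := by
  have h0 : volume (⋃ k, ⋃ l, segment ℝ (c k) (c l)) = 0 := by
    refine measure_iUnion_null fun k => measure_iUnion_null fun l => ?_
    have h1 : segment ℝ (c k) (c l) ⊆
        (AffineSubspace.mk' (c k) (Submodule.span ℝ {c l - c k}) : Set ℂ) := by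
      intro z hz
      rw [segment_eq_image'] at hz
      obtain ⟨t, -, rfl⟩ := hz
      rw [SetLike.mem_coe, AffineSubspace.mem_mk', vsub_eq_sub, add_sub_cancel_left]
      exact Submodule.smul_mem _ _ (Submodule.mem_span_singleton_self _)
    refine measure_mono_null h1 (Measure.addHaar_affineSubspace _ _ ?_)
    intro h
    have h2 := congrArg AffineSubspace.direction h
    rw [AffineSubspace.direction_mk', AffineSubspace.direction_top] at h2
    have h3 : Module.finrank ℝ (Submodule.span ℝ {c l - c k}) ≤ 1 := by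
      have := finrank_span_le_card (R := ℝ) ({c l - c k} : Set ℂ)
      simpa using this
    rw [h2, finrank_top, Complex.finrank_real_complex] at h3
    omega
  have h1 : 0 < volume (ball (0 : ℂ) ε) := measure_ball_pos _ _ hε
  obtain ⟨z, hz1, hz2⟩ : ∃ z ∈ ball (0 : ℂ) ε, z ∉ ⋃ k, ⋃ l, segment ℝ (c k) (c l) := by
    by_contra hcon
    push Not at hcon
    exact absurd (measure_mono_null hcon h0) h1.ne'
  refine ⟨-z, by simpa using hz1, fun k l h => hz2 ?_⟩
  rw [neg_neg] at h
  exact mem_iUnion.2 ⟨k, mem_iUnion.2 ⟨l, h⟩⟩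

variable {X : Type u} [TopologicalSpace X] [CompactSpace X] [T2Space X]

theorem exists_nonvanishing (hX : CoveringDimLE X 1) (f : C(X, ℂ)) {ε : ℝ} (hε : 0 < ε) :
    ∃ g : C(X, ℂ), (∀ x, g x ≠ 0) ∧ ∀ x, ‖g x - f x‖ < ε := by
  classical
  -- a finite cover on whose members `f` is nearly constant
  obtain ⟨s, hs⟩ := isCompact_univ.elim_nhds_subcover (fun x : X => f ⁻¹' ball (f x) (ε / 2))
    (fun x _ => (isOpen_ball.preimage f.continuous).mem_nhds (mem_ball_self (by positivity)))
  obtain ⟨-, hs⟩ := hs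
  let e : Fin s.card ≃ s := s.equivFin.symm
  have hcov : (⋃ i : Fin s.card, f ⁻¹' ball (f (e i).1) (ε / 2)) = univ := by
    rw [eq_univ_iff_forall]
    intro x
    have := hs (mem_univ x)
    simp only [mem_iUnion] at this ⊢
    obtain ⟨y, hy, hxy⟩ := this
    exact ⟨e.symm ⟨y, hy⟩, by simpa using hxy⟩
  obtain ⟨M, V, hVo, hVc, hVU, hVn⟩ := hX _ _
    (fun i => isOpen_ball.preimage f.continuous) hcov
  choose i hi using hVU
  let c : Fin M → ℂ := fun k => f (e (i k)).1
  have hc : ∀ k, ∀ x ∈ V k, ‖c k - f x‖ < ε / 2 := by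
    intro k x hx
    have := hi k hx
    rw [mem_preimage, mem_ball, dist_comm, dist_eq_norm] at this
    exact this
  obtain ⟨τ, hτ1, hτ2⟩ := exists_small_avoid c (half_pos hε)
  obtain ⟨φ, hφ⟩ := PartitionOfUnity.exists_isSubordinate (s := univ) isClosed_univ V hVo
    (by rw [hVc])
  have hφV : ∀ k x, φ k x ≠ 0 → x ∈ V k := fun k x h =>
    hφ k (subset_tsupport _ h)
  have hsum : ∀ x, ∑ k, φ k x = 1 := fun x => by
    have := φ.sum_eq_one (mem_univ x)
    rwa [finsum_eq_sum_of_fintype] at this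
  let g : C(X, ℂ) := ⟨fun x => ∑ k, ((φ k x : ℝ) : ℂ) * c k + τ, by
    refine Continuous.add (continuous_finsetSum _ fun k _ => ?_) continuous_const
    exact (Complex.continuous_ofReal.comp (φ k).continuous).mul continuous_const⟩
  refine ⟨g, fun x hx => ?_, fun x => ?_⟩
  · -- at most two members of the partition are active
    have hx' : ∑ k, ((φ k x : ℝ) : ℂ) * c k = -τ := by
      have : ∑ k, ((φ k x : ℝ) : ℂ) * c k + τ = 0 := hx
      exact eq_neg_of_add_eq_zero_left this
    set T : Finset (Fin M) := Finset.univ.filter fun k => φ k x ≠ 0 with hT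
    have hTcard : T.card ≤ 2 := by
      have h1 : (T : Set (Fin M)) ⊆ {k | x ∈ V k} := fun k hk => by
        rw [hT] at hk
        simp only [Finset.coe_filter, Finset.mem_univ, true_and, mem_setOf_eq] at hk
        exact hφV k x hk
      have h2 := ncard_le_ncard h1 (toFinite _)
      rw [ncard_coe_finset] at h2
      exact h2.trans (hVn x)
    have hTsum : ∀ F : Fin M → ℂ, ∑ k, ((φ k x : ℝ) : ℂ) * F k =
        ∑ k ∈ T, ((φ k x : ℝ) : ℂ) * F k := by
      intro F
      rw [hT, Finset.sum_filter]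
      refine Finset.sum_congr rfl fun k _ => ?_
      split_ifs with h
      · rfl
      · push Not at h
        simp [h]
    have hTone : ∑ k ∈ T, φ k x = 1 := by
      rw [← hsum x, hT, Finset.sum_filter]
      refine Finset.sum_congr rfl fun k _ => ?_
      split_ifs with h
      · rfl
      · push Not at h
        exact h.symm
    rw [hTsum] at hx'
    have h0 : T.card = 0 ∨ T.card = 1 ∨ T.card = 2 := by omega
    rcases h0 with h0 | h0 | h0
    · rw [Finset.card_eq_zero] at h0
      rw [h0] at hTone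
      simp at hTone
    · obtain ⟨k, hk⟩ := Finset.card_eq_one.1 h0
      rw [hk, Finset.sum_singleton] at hTone hx'
      rw [hTone] at hx'
      refine hτ2 k k ?_
      rw [← hx', segment_same]
      simp
    · obtain ⟨k, l, hkl, hk⟩ := Finset.card_eq_two.1 h0
      rw [hk, Finset.sum_pair hkl] at hTone hx'
      refine hτ2 k l ?_
      rw [← hx']
      exact ⟨φ k x, φ l x, φ.nonneg k x, φ.nonneg l x, hTone, by
        simp [Complex.real_smul]⟩
  · have h1 : g x - f x = ∑ k, ((φ k x : ℝ) : ℂ) * (c k - f x) + τ := by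
      have h2 : (∑ k, ((φ k x : ℝ) : ℂ)) = 1 := by
        rw [← Complex.ofReal_sum, hsum x, Complex.ofReal_one]
      change ∑ k, ((φ k x : ℝ) : ℂ) * c k + τ - f x = _
      simp only [mul_sub, Finset.sum_sub_distrib, ← Finset.sum_mul]
      rw [h2]
      ring
    rw [h1]
    have h3 : ‖∑ k, ((φ k x : ℝ) : ℂ) * (c k - f x)‖ ≤ ε / 2 := by
      calc ‖∑ k, ((φ k x : ℝ) : ℂ) * (c k - f x)‖
          ≤ ∑ k, ‖((φ k x : ℝ) : ℂ) * (c k - f x)‖ := norm_sum_le _ _
        _ ≤ ∑ k, φ k x * (ε / 2) := by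
          refine Finset.sum_le_sum fun k _ => ?_
          rw [norm_mul, Complex.norm_real, Real.norm_of_nonneg (φ.nonneg k x)]
          by_cases h : φ k x = 0
          · simp [h]
          · exact mul_le_mul_of_nonneg_left (hc k x (hφV k x h)).le (φ.nonneg k x)
        _ = ε / 2 := by rw [← Finset.sum_mul, hsum x, one_mul]
    calc ‖∑ k, ((φ k x : ℝ) : ℂ) * (c k - f x) + τ‖ ≤ _ := norm_add_le _ _
      _ < ε / 2 + ε / 2 := by linarith
      _ = ε := by ring

end Pool.Agent.X304.Mul
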