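import Pool.Agent.X304.Mul.Almost

/-!
# Uniform openness
-/

open Set Metric Filter
open scoped Topology Pointwise

universe u

namespace Pool.Agent.X304.Mul

variable {X : Type u} [TopologicalSpace X] [CompactSpace X]

theorem lift_approx (D : DenseNV X) {η : ℝ} (hη : 0 < η) (hη1 : η ≤ 1 / 16) (f g h : C(X, ℂ))
    (hf : ∀ x, ‖f x‖ ≤ 2) (hg : ∀ x, ‖g x‖ ≤ 2) (hh : ∀ x, ‖h x - f x * g x‖ ≤ η ^ 4 / 8)
    {δ : ℝ} (hδ : 0 < δ) :
    ∃ f₁ g₁ : C(X, ℂ), (∀ x, ‖f₁ x - f x‖ ≤ 8 * η) ∧ (∀ x, ‖g₁ x - g x‖ ≤ 8 * η) ∧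
      ∀ x, ‖h x - f₁ x * g₁ x‖ ≤ δ := by
  obtain ⟨h₁, hh1, hh2⟩ := D h (min δ (η ^ 4 / 8)) (lt_min hδ (by positivity))
  obtain ⟨f₁, g₁, h3, h4, h5⟩ := lift_nv D hη hη1 f g h₁ hf hg (fun x => by
    calc ‖h₁ x - f x * g x‖ = ‖(h₁ x - h x) + (h x - f x * g x)‖ := by congr 1; ring
      _ ≤ η ^ 4 / 8 + η ^ 4 / 8 :=
        (norm_add_le _ _).trans (add_le_add ((hh2 x).le.trans (min_le_right _ _)) (hh x))
      _ = _ := by ring) hh1
  refine ⟨f₁, g₁, h3, h4, fun x => ?_⟩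
  have : f₁ x * g₁ x = h₁ x := by rw [← h5]; rfl
  rw [this, norm_sub_rev]
  exact (hh2 x).le.trans (min_le_left _ _)

/-- Exact lifting with a uniform constant. -/
theorem lift_exact (D : DenseNV X) {η : ℝ} (hη : 0 < η) (hη1 : η ≤ 1 / 16) (f g h : C(X, ℂ))
    (hf : ‖f‖ ≤ 1) (hg : ‖g‖ ≤ 1) (hh : ∀ x, ‖h x - f x * g x‖ ≤ η ^ 4 / 8) :
    ∃ f₁ g₁ : C(X, ℂ), ‖f₁ - f‖ ≤ 16 * η ∧ ‖g₁ - g‖ ≤ 16 * η ∧ f₁ * g₁ = h := by
  let P : ℕ → C(X, ℂ) × C(X, ℂ) → Prop := fun k p =>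
    (∀ x, ‖p.1 x - f x‖ ≤ 16 * η * (1 - (1 / 2) ^ k)) ∧
    (∀ x, ‖p.2 x - g x‖ ≤ 16 * η * (1 - (1 / 2) ^ k)) ∧
    ∀ x, ‖h x - p.1 x * p.2 x‖ ≤ (η * (1 / 2) ^ k) ^ 4 / 8
  have hstep : ∀ k (p : {p // P k p}), ∃ p' : {p' // P (k + 1) p'},
      (∀ x, ‖p'.1.1 x - p.1.1 x‖ ≤ 8 * η * (1 / 2) ^ k) ∧
      (∀ x, ‖p'.1.2 x - p.1.2 x‖ ≤ 8 * η * (1 / 2) ^ k) := by
    rintro k ⟨p, hp1, hp2, hp3⟩
    have hk : (0 : ℝ) < (1 / 2) ^ k := by positivity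
    have hk1 : ((1 : ℝ) / 2) ^ k ≤ 1 := pow_le_one₀ (by norm_num) (by norm_num)
    have hb : ∀ (q r : C(X, ℂ)), ‖r‖ ≤ 1 → (∀ x, ‖q x - r x‖ ≤ 16 * η * (1 - (1 / 2) ^ k)) →
        ∀ x, ‖q x‖ ≤ 2 := by
      intro q r hr hq x
      have h1 : ‖r x‖ ≤ 1 := (r.norm_coe_le_norm x).trans hr
      have h2 : ‖q x‖ ≤ ‖q x - r x‖ + ‖r x‖ := by
        calc ‖q x‖ = ‖(q x - r x) + r x‖ := by congr 1; ring
          _ ≤ _ := norm_add_le _ _
      have h3 := hq x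
      nlinarith
    obtain ⟨f₁, g₁, h1, h2, h3⟩ := lift_approx D (η := η * (1 / 2) ^ k) (by positivity)
      (by nlinarith) p.1 p.2 h (hb _ f hf hp1) (hb _ g hg hp2) hp3
      (δ := (η * (1 / 2) ^ (k + 1)) ^ 4 / 8) (by positivity)
    have hadd : ∀ (q r s : C(X, ℂ)), (∀ x, ‖q x - r x‖ ≤ 8 * (η * (1 / 2) ^ k)) →
        (∀ x, ‖r x - s x‖ ≤ 16 * η * (1 - (1 / 2) ^ k)) →
        ∀ x, ‖q x - s x‖ ≤ 16 * η * (1 - (1 / 2) ^ (k + 1)) := by
      intro q r s hq hr x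
      calc ‖q x - s x‖ = ‖(q x - r x) + (r x - s x)‖ := by congr 1; ring
        _ ≤ 8 * (η * (1 / 2) ^ k) + 16 * η * (1 - (1 / 2) ^ k) :=
          (norm_add_le _ _).trans (add_le_add (hq x) (hr x))
        _ = _ := by rw [pow_succ]; ring
    refine ⟨⟨(f₁, g₁), hadd _ _ _ h1 hp1, hadd _ _ _ h2 hp2, h3⟩, fun x => ?_, fun x => ?_⟩
    · have := h1 x
      change ‖f₁ x - p.1 x‖ ≤ _
      linarith
    · have := h2 x
      change ‖g₁ x - p.2 x‖ ≤ _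
      linarith
  choose F hF1 hF2 using hstep
  have h0 : P 0 (f, g) := by
    refine ⟨fun x => by simp, fun x => by simp, fun x => ?_⟩
    simpa using hh x
  let S : ∀ k, {p // P k p} := fun k => Nat.rec ⟨(f, g), h0⟩ (fun k p => F k p) k
  have hS : ∀ k, S (k + 1) = F k (S k) := fun k => rfl
  have hnorm : ∀ (q r : C(X, ℂ)) (C : ℝ), 0 ≤ C → (∀ x, ‖q x - r x‖ ≤ C) → ‖q - r‖ ≤ C := by
    intro q r C hC hq
    rw [ContinuousMap.norm_le _ hC]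
    exact fun x => hq x
  have hc1 : CauchySeq fun k => (S k).1.1 := by
    refine cauchySeq_of_le_geometric (1 / 2) (8 * η) (by norm_num) fun k => ?_
    rw [dist_comm, dist_eq_norm]
    exact hnorm _ _ _ (by positivity) (by rw [hS]; exact hF1 k (S k))
  have hc2 : CauchySeq fun k => (S k).1.2 := by
    refine cauchySeq_of_le_geometric (1 / 2) (8 * η) (by norm_num) fun k => ?_
    rw [dist_comm, dist_eq_norm]
    exact hnorm _ _ _ (by positivity) (by rw [hS]; exact hF2 k (S k))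
  obtain ⟨a, ha⟩ := cauchySeq_tendsto_of_complete hc1
  obtain ⟨b, hb⟩ := cauchySeq_tendsto_of_complete hc2
  have hk1 : ∀ k : ℕ, 16 * η * (1 - (1 / 2) ^ k) ≤ 16 * η := fun k => by
    have : (0 : ℝ) < (1 / 2) ^ k := by positivity
    nlinarith
  refine ⟨a, b, ?_, ?_, ?_⟩
  · refine le_of_tendsto ((ha.sub_const f).norm) (Eventually.of_forall fun k => ?_)
    exact hnorm _ _ _ (by positivity) fun x => ((S k).2.1 x).trans (hk1 k)
  · refine le_of_tendsto ((hb.sub_const g).norm) (Eventually.of_forall fun k => ?_)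
    exact hnorm _ _ _ (by positivity) fun x => ((S k).2.2.1 x).trans (hk1 k)
  · have h1 : Tendsto (fun k => h - (S k).1.1 * (S k).1.2) atTop (𝓝 (h - a * b)) :=
      tendsto_const_nhds.sub (ha.mul hb)
    have h2 : Tendsto (fun k => h - (S k).1.1 * (S k).1.2) atTop (𝓝 0) := by
      rw [tendsto_zero_iff_norm_tendsto_zero]
      have h3 : Tendsto (fun k : ℕ => (η * (1 / 2 : ℝ) ^ k) ^ 4 / 8) atTop (𝓝 0) := by
        have h4 : Tendsto (fun k : ℕ => (1 / 2 : ℝ) ^ k) atTop (𝓝 0) :=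
          tendsto_pow_atTop_nhds_zero_of_lt_one (by norm_num) (by norm_num)
        have := ((h4.const_mul η).pow 4).div_const 8
        simpa using this
      refine squeeze_zero (fun k => norm_nonneg _) (fun k => ?_) h3
      rw [ContinuousMap.norm_le _ (by positivity)]
      exact (S k).2.2.2
    have h3 := tendsto_nhds_unique h1 h2
    exact (sub_eq_zero.1 h3).symm

theorem ball_subset (D : DenseNV X) {ε : ℝ} (hε : 0 < ε) (f g : C(X, ℂ)) (hf : ‖f‖ ≤ 1)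
    (hg : ‖g‖ ≤ 1) :
    ball (f * g) ((min (1 / 16) (ε / 32)) ^ 4 / 8) ⊆ ball f ε * ball g ε := by
  intro h hh
  set η := min (1 / 16) (ε / 32) with hη
  have hη0 : 0 < η := lt_min (by norm_num) (by positivity)
  rw [mem_ball, dist_eq_norm] at hh
  obtain ⟨f₁, g₁, h1, h2, h3⟩ := lift_exact D hη0 (min_le_left _ _) f g h hf hg (fun x => by
    have := (h - f * g).norm_coe_le_norm x
    exact this.trans hh.le)
  have h4 : 16 * η < ε := by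
    have := min_le_right (1 / 16 : ℝ) (ε / 32)
    linarith
  rw [Set.mem_mul]
  refine ⟨f₁, ?_, g₁, ?_, h3⟩
  · rw [mem_ball, dist_eq_norm]; linarith
  · rw [mem_ball, dist_eq_norm]; linarith

theorem isOpenMap_mul (D : DenseNV X) :
    IsOpenMap fun p : C(X, ℂ) × C(X, ℂ) => p.1 * p.2 := by
  rw [isOpenMap_iff_nhds_le]
  rintro ⟨f, g⟩ U hU
  rw [mem_map, Metric.mem_nhds_iff] at hU
  obtain ⟨ε, hε, hU⟩ := hU
  set c : ℝ := max 1 (max ‖f‖ ‖g‖) with hc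
  have hc1 : 1 ≤ c := le_max_left _ _
  have hc0 : 0 < c := by linarith
  have hcf : ‖f‖ ≤ c := (le_max_left _ _).trans (le_max_right _ _)
  have hcg : ‖g‖ ≤ c := (le_max_right _ _).trans (le_max_right _ _)
  set δ := (min (1 / 16) (ε / c / 32)) ^ 4 / 8 with hδ
  have hδ0 : 0 < δ := by
    have : 0 < min (1 / 16) (ε / c / 32) := lt_min (by norm_num) (by positivity)
    positivity
  have hscale : ∀ r : C(X, ℂ), ‖r‖ ≤ c → ‖(c⁻¹ : ℝ) • r‖ ≤ 1 := by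
    intro r hr
    rw [norm_smul, norm_inv, Real.norm_of_nonneg hc0.le, inv_mul_le_iff₀ hc0, mul_one]
    exact hr
  rw [Metric.mem_nhds_iff]
  refine ⟨c ^ 2 * δ, by positivity, fun h hh => ?_⟩
  have h1 : (c⁻¹ ^ 2 : ℝ) • h ∈ ball (((c⁻¹ : ℝ) • f) * ((c⁻¹ : ℝ) • g)) δ := by
    rw [mem_ball, dist_eq_norm] at hh ⊢
    have e : (c⁻¹ ^ 2 : ℝ) • h - ((c⁻¹ : ℝ) • f) * ((c⁻¹ : ℝ) • g) =
        (c⁻¹ ^ 2 : ℝ) • (h - f * g) := by
      rw [smul_sub, smul_mul_smul_comm, sq]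
    rw [e, norm_smul, norm_pow, norm_inv, Real.norm_of_nonneg hc0.le, inv_pow,
      inv_mul_lt_iff₀ (by positivity)]
    exact hh
  obtain ⟨f₁, hf₁, g₁, hg₁, h2⟩ := Set.mem_mul.1
    (ball_subset D (ε := ε / c) (by positivity) _ _ (hscale f hcf) (hscale g hcg) h1)
  have hback : ∀ (r r₁ : C(X, ℂ)), r₁ ∈ ball ((c⁻¹ : ℝ) • r) (ε / c) → dist (c • r₁) r < ε := by
    intro r r₁ hr
    rw [mem_ball, dist_eq_norm] at hr
    have e : c • r₁ - r = c • (r₁ - (c⁻¹ : ℝ) • r) := by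
      rw [smul_sub, smul_smul, mul_inv_cancel₀ hc0.ne', one_smul]
    rw [dist_eq_norm, e, norm_smul, Real.norm_of_nonneg hc0.le]
    rwa [lt_div_iff₀' hc0] at hr
  have h3 : (c • f₁, c • g₁) ∈ ball (f, g) ε := by
    rw [mem_ball, Prod.dist_eq]
    exact max_lt (hback f f₁ hf₁) (hback g g₁ hg₁)
  have h4 := hU h3
  have h5 : (c • f₁) * (c • g₁) = h := by
    rw [smul_mul_smul_comm, h2, smul_smul]
    have : c * c * c⁻¹ ^ 2 = 1 := by field_simp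
    rw [this, one_smul]
  have h6 : (c • f₁) * (c • g₁) ∈ U := h4
  rwa [h5] at h6

end Pool.Agent.X304.Mul
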